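import Pool.Agent.helper23.CU.SpecE

/-! # cu:HB (helper46): pair inequality -/

open Finset Filter Topology

namespace CU

theorem HB_edge {d n : ℕ} [NeZero n] (γ : Finset (Edge d n)) (e : Edge d n) (σ : Conf d n) :
    sgn γ e * ed e σ = 1 - 2 * (if e ∈ symmDiff (brk σ) γ then (1 : ℝ) else 0) := by
  have h1 : e ∈ brk σ ↔ σ e.1 ≠ σ (e.1 + ev e.2) := by
    unfold brk
    simp
  unfold sgn ed
  simp only [Finset.mem_symmDiff, h1]
  by_cases hg : e ∈ γ <;> cases h2 : σ e.1 <;> cases h3 : σ (e.1 + ev e.2) <;>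
    simp [hg, sg] <;> norm_num

theorem HB_wt {d n : ℕ} [NeZero n] (b : ℝ) (γ : Finset (Edge d n)) (σ : Conf d n) :
    Real.exp (-2 * b * ((symmDiff (brk σ) γ).card : ℝ)) =
      Real.exp (-(b * (Fintype.card (Edge d n) : ℝ))) *
        Real.exp (∑ e : Edge d n, b * sgn γ e * ed e σ) := by
  rw [← Real.exp_add]
  congr 1
  have h1 : ((symmDiff (brk σ) γ).card : ℝ) =
      ∑ e : Edge d n, if e ∈ symmDiff (brk σ) γ then (1 : ℝ) else 0 := by
    rw [← Finset.sum_filter, Finset.sum_const, nsmul_eq_mul, mul_one]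
    congr 2
    ext e
    simp
  have h2 : ∑ e : Edge d n, b * sgn γ e * ed e σ =
      b * ((Fintype.card (Edge d n) : ℝ) - 2 * ((symmDiff (brk σ) γ).card : ℝ)) := by
    have h3 : ∑ e : Edge d n, b * sgn γ e * ed e σ =
        ∑ e : Edge d n, b * (1 - 2 * (if e ∈ symmDiff (brk σ) γ then (1 : ℝ) else 0)) :=
      Finset.sum_congr rfl fun e _ => by rw [mul_assoc, HB_edge]
    rw [h3, ← Finset.mul_sum, Finset.sum_sub_distrib, ← Finset.mul_sum, ← h1]
    simp
  rw [h2]
  ring

theorem HB_EG {d n : ℕ} [NeZero n] (b : ℝ) (D : Finset (Site d n)) (γ : Finset (Edge d n))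
    (f : Conf d n → ℝ) :
    EG b D γ f = (∑ σ ∈ PlusOn D, Real.exp (∑ e : Edge d n, b * sgn γ e * ed e σ) * f σ) /
      ∑ σ ∈ PlusOn D, Real.exp (∑ e : Edge d n, b * sgn γ e * ed e σ) := by
  unfold EG ZG
  simp only [HB_wt]
  simp only [mul_assoc (Real.exp _)]
  rw [← Finset.mul_sum, ← Finset.mul_sum, mul_div_mul_left _ _ (Real.exp_pos _).ne']

theorem HB_pos {d n : ℕ} [NeZero n] (D : Finset (Site d n)) (u : Conf d n → ℝ) :
    0 < ∑ σ ∈ PlusOn D, Real.exp (u σ) :=
  Finset.sum_pos (fun σ _ => Real.exp_pos _) ⟨fun _ => true, by simp [PlusOn]⟩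

theorem HB_real (s a1 a1' ax ay axy ax' ay' axy' : ℝ) (h1 : 0 < a1) (h1' : 0 < a1')
    (h2 : 0 ≤ (axy * a1' - s * (a1 * axy')) - (ax * ay' - s * (ay * ax')))
    (h3 : 0 ≤ (axy * a1' - s * (a1 * axy')) + (ax * ay' - s * (ay * ax'))) :
    |ax / a1 * (ay' / a1') - s * (ay / a1) * (ax' / a1')| ≤ axy / a1 - s * (axy' / a1') := by
  have e1 : ax / a1 * (ay' / a1') - s * (ay / a1) * (ax' / a1') =
      (ax * ay' - s * (ay * ax')) / (a1 * a1') := by
    field_simp
  have e2 : axy / a1 - s * (axy' / a1') = (axy * a1' - s * (a1 * axy')) / (a1 * a1') := by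
    field_simp
  rw [e1, e2, abs_div, abs_of_pos (mul_pos h1 h1')]
  refine div_le_div_of_nonneg_right ?_ (mul_pos h1 h1').le
  rw [abs_le]
  constructor <;> linarith

theorem HB (hG : GI_stmt) : HB_stmt := by
  intro d n _ b hb D γ e
  obtain ⟨x, hx⟩ : ∃ x, x = e.1 := ⟨_, rfl⟩
  obtain ⟨y, hy⟩ : ∃ y, y = e.1 + ev e.2 := ⟨_, rfl⟩
  have hed : ∀ σ : Conf d n, ed e σ = sg (σ x) * sg (σ y) := fun σ => by
    rw [hx, hy]; rfl
  have hed' : (ed e : Conf d n → ℝ) = fun σ => sg (σ x) * sg (σ y) := funext hed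
  rw [hed', ← hy, ← hx]
  obtain ⟨A, hA⟩ : ∃ A : (Conf d n → ℝ) → ℝ, A = fun f => ∑ σ ∈ PlusOn D,
    Real.exp (∑ e : Edge d n, b * sgn (∅ : Finset (Edge d n)) e * ed e σ) * f σ := ⟨_, rfl⟩
  obtain ⟨A', hA'⟩ : ∃ A' : (Conf d n → ℝ) → ℝ, A' = fun f => ∑ σ ∈ PlusOn D,
    Real.exp (∑ e : Edge d n, b * sgn γ e * ed e σ) * f σ := ⟨_, rfl⟩
  have hE : ∀ f, EG b D ∅ f = A f / A (fun _ => 1) := fun f => by
    rw [HB_EG, hA]; simp only [mul_one]
  have hE' : ∀ f, EG b D γ f = A' f / A' (fun _ => 1) := fun f => by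
    rw [HB_EG, hA']; simp only [mul_one]
  have hpos : 0 < A (fun _ => 1) := by
    rw [hA]; simp only [mul_one]; exact HB_pos D _
  have hpos' : 0 < A' (fun _ => 1) := by
    rw [hA']; simp only [mul_one]; exact HB_pos D _
  have hs1 : ∀ e : Edge d n, |b * sgn γ e| ≤ b := by
    intro e
    unfold sgn
    split_ifs
    · rw [mul_neg, abs_neg, mul_one, abs_of_nonneg hb]
    · rw [mul_one, abs_of_nonneg hb]
  have hs0 : ∀ e : Edge d n, sgn (∅ : Finset (Edge d n)) e = 1 := fun e => by simp [sgn]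
  have hprod : ∀ f g : Conf d n → ℝ, ∑ σ ∈ PlusOn D, ∑ σ' ∈ PlusOn D,
      Real.exp (∑ e : Edge d n, (b * ed e σ + b * sgn γ e * ed e σ')) * (f σ * g σ') =
      A f * A' g := by
    intro f g
    rw [hA, hA']
    simp only [hs0, mul_one]
    rw [Finset.sum_mul_sum]
    refine Finset.sum_congr rfl fun σ _ => Finset.sum_congr rfl fun σ' _ => ?_
    rw [Finset.sum_add_distrib, Real.exp_add]
    ring
  have hGG := hG d n D (fun _ => b) (fun e => b * sgn γ e) hs1
  rw [hE, hE, hE', hE', hE, hE']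
  apply HB_real _ _ _ _ _ _ _ _ _ hpos hpos'
  · rcases (by unfold sgn; split_ifs <;> simp : sgn γ e = 1 ∨ sgn γ e = -1) with hs | hs
    · have h := hGG [x] [y]
      refine le_trans h (le_of_eq ?_)
      rw [hs, ← hprod, ← hprod, ← hprod, ← hprod]
      simp only [← Finset.sum_sub_distrib, one_mul, List.map_cons, List.map_nil, List.prod_cons,
        List.prod_nil, mul_one]
      refine Finset.sum_congr rfl fun σ _ => ?_
      rw [← sub_eq_zero]
      simp only [← Finset.sum_sub_distrib]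
      refine Finset.sum_eq_zero fun σ' _ => ?_
      ring
    · have h := hGG [] [x, y]
      refine le_trans h (le_of_eq ?_)
      rw [hs, ← hprod, ← hprod, ← hprod, ← hprod]
      simp only [neg_mul, sub_neg_eq_add, ← Finset.sum_sub_distrib, ← Finset.sum_add_distrib,
        one_mul, List.map_cons, List.map_nil, List.prod_cons, List.prod_nil, mul_one]
      refine Finset.sum_congr rfl fun σ _ => ?_
      rw [← sub_eq_zero]
      simp only [← Finset.sum_sub_distrib]
      refine Finset.sum_eq_zero fun σ' _ => ?_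
      ring
  · rcases (by unfold sgn; split_ifs <;> simp : sgn γ e = 1 ∨ sgn γ e = -1) with hs | hs
    · have h := hGG [y] [x]
      refine le_trans h (le_of_eq ?_)
      rw [hs, ← hprod, ← hprod, ← hprod, ← hprod]
      simp only [← Finset.sum_sub_distrib, ← Finset.sum_add_distrib, one_mul, List.map_cons,
        List.map_nil, List.prod_cons, List.prod_nil, mul_one]
      refine Finset.sum_congr rfl fun σ _ => ?_
      rw [← sub_eq_zero]
      simp only [← Finset.sum_sub_distrib]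
      refine Finset.sum_eq_zero fun σ' _ => ?_
      ring
    · have h := hGG [x, y] []
      refine le_trans h (le_of_eq ?_)
      rw [hs, ← hprod, ← hprod, ← hprod, ← hprod]
      simp only [neg_mul, sub_neg_eq_add, ← Finset.sum_sub_distrib, ← Finset.sum_add_distrib,
        one_mul, List.map_cons, List.map_nil, List.prod_cons, List.prod_nil, mul_one]
      refine Finset.sum_congr rfl fun σ _ => ?_
      rw [← sub_eq_zero]
      simp only [← Finset.sum_sub_distrib]
      refine Finset.sum_eq_zero fun σ' _ => ?_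
      ring

end CU
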