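import Pool.Agent.helper23.CU.SpecE

/-! # cu:RE (helper46): contours and the dual two point function -/

open Finset Filter Topology

namespace CU

theorem RE_W {n : ℕ} [NeZero n] (β : ℝ) (σ : Conf 2 n) :
    W β σ = Real.exp (-2 * β) ^ (brk σ).card := by
  unfold W
  rw [← Real.exp_nat_mul]
  congr 1
  ring

theorem RE (hB : RB_stmt) (hD : RD_stmt) (hC : QC_stmt) : RE_stmt := by
  classical
  intro n _ hn β hβ u w
  obtain ⟨x, hx⟩ : ∃ x, x = Real.exp (-2 * β) := ⟨_, rfl⟩
  have hx0 : 0 < x := by rw [hx]; exact Real.exp_pos _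
  have hx1 : x < 1 := by
    rw [hx, Real.exp_lt_one_iff]
    linarith
  obtain ⟨hB1, hB2⟩ := hB n hn
  obtain ⟨hC1, hC2, hC3, hC4⟩ := hC n hn univ x hx0 hx1 u w
  have hD1 := hD n hn β hβ
  rw [← hx] at hD1 ⊢
  unfold PrE Ex corr
  simp only [RE_W, ← hx]
  have hden : 0 < ∑ σ : Conf 2 n, x ^ (brk σ).card := by
    refine Finset.sum_pos (fun σ _ => by positivity) ⟨fun _ => true, Finset.mem_univ _⟩
  have hnum : ∑ σ : Conf 2 n, x ^ (brk σ).card *
      ({σ : Conf 2 n | (dG (brk σ)).Reachable u w}.indicator (fun _ => (1 : ℝ)) σ) ≤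
      2 * Zs univ (src u w) x := by
    have h1 : ∑ σ : Conf 2 n, x ^ (brk σ).card *
        ({σ : Conf 2 n | (dG (brk σ)).Reachable u w}.indicator (fun _ => (1 : ℝ)) σ) =
        ∑ σ ∈ univ.filter (fun σ : Conf 2 n => (dG (brk σ)).Reachable u w), x ^ (brk σ).card := by
      rw [Finset.sum_filter]
      refine Finset.sum_congr rfl fun σ _ => ?_
      by_cases h : (dG (brk σ)).Reachable u w
      · rw [if_pos h, Set.indicator_of_mem (by exact h), mul_one]
      · rw [if_neg h, Set.indicator_of_notMem (by exact h), mul_zero]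
    rw [h1]
    have h2 : ∀ σ ∈ univ.filter (fun σ : Conf 2 n => (dG (brk σ)).Reachable u w),
        brk σ ∈ (univ : Finset (Edge 2 n)).powerset.filter
          (fun η => bd η = 0 ∧ (dG η).Reachable u w) := by
      intro σ hσ
      rw [Finset.mem_filter] at hσ ⊢
      exact ⟨Finset.mem_powerset.2 (Finset.subset_univ _), hB1 σ, hσ.2⟩
    rw [← Finset.sum_fiberwise_of_maps_to h2]
    refine le_trans (Finset.sum_le_sum (g := fun η => 2 * x ^ η.card) fun η _ => ?_) ?_
    · have h3 : ∑ σ ∈ (univ.filter (fun σ : Conf 2 n => (dG (brk σ)).Reachable u w)).filter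
          (fun σ => brk σ = η), x ^ (brk σ).card =
          (((univ.filter (fun σ : Conf 2 n => (dG (brk σ)).Reachable u w)).filter
          (fun σ => brk σ = η)).card : ℝ) * x ^ η.card := by
        rw [← nsmul_eq_mul, ← Finset.sum_const]
        refine Finset.sum_congr rfl fun σ hσ => ?_
        rw [(Finset.mem_filter.1 hσ).2]
      rw [h3]
      refine mul_le_mul_of_nonneg_right ?_ (by positivity)
      have h4 : ((univ.filter (fun σ : Conf 2 n => (dG (brk σ)).Reachable u w)).filter
          (fun σ => brk σ = η)).card ≤ 2 := by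
        rcases Finset.eq_empty_or_nonempty
          ((univ.filter (fun σ : Conf 2 n => (dG (brk σ)).Reachable u w)).filter
          (fun σ => brk σ = η)) with h5 | ⟨σ0, h5⟩
        · rw [h5]; simp
        · refine le_trans (Finset.card_le_card (t := {σ0, flipc σ0}) fun σ hσ => ?_)
            Finset.card_le_two
          have h6 := (Finset.mem_filter.1 hσ).2
          have h7 := (Finset.mem_filter.1 h5).2
          rw [Finset.mem_insert, Finset.mem_singleton]
          exact hB2 σ0 σ (h7.trans h6.symm)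
      exact_mod_cast h4
    · rw [← Finset.mul_sum]
      refine mul_le_mul_of_nonneg_left ?_ (by norm_num)
      refine le_trans (le_of_eq ?_) hC4
      refine Finset.sum_congr ?_ fun _ _ => rfl
      ext η
      simp only [Finset.mem_filter]
  rw [← mul_div_assoc, div_le_div_iff₀ hden hC1]
  calc _ ≤ (2 * Zs univ (src u w) x) * Zs univ 0 x :=
        mul_le_mul_of_nonneg_right hnum hC1.le
    _ ≤ (2 * Zs univ (src u w) x) * (2 * ∑ σ : Conf 2 n, x ^ (brk σ).card) :=
        mul_le_mul_of_nonneg_left hD1 (by positivity)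
    _ = _ := by ring

end CU
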